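import Pool.Agent.Helper97.Tate.Goals
import Pool.Agent.Helper31.FewP.MIN

/-!
# FewPoints (MP_d3128a_ag), packet TATE-DET: injectivity from the extreme monomials
-/

set_option autoImplicit false

namespace Pool.Agent.Helper63.Tate.DET

open Pool.Agent.Helper97.Tate

/-- the coefficient at `(N, g)` as an additive homomorphism -/
noncomputable def ch {G : Type} [AddCommGroup G] (N : ℕ) (g : G) :
    PowerSeries (AddMonoidAlgebra ℚ G) →+ ℚ where
  toFun F := (PowerSeries.coeff N F).coeff g
  map_zero' := by simp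
  map_add' F F' := by simp

theorem t (h1 : S_PRD) : S_DET := by
  intro G Row Col I _ _ _ _ bw pt ist M om ta Pn Pg v hM hc hv hinj L _ f hf a ha
  classical
  -- the rows of a nonsingular minor
  have hli : LinearIndependent ℚ (fun (c : Col) (ρ : Row) => if pt ρ = ist c then v ρ c else 0) := by
    rw [Fintype.linearIndependent_iff]
    intro b hb
    have h2 := hinj b (fun ρ => by
      have h3 := congrFun hb ρ
      rw [Finset.sum_apply, Pi.zero_apply] at h3
      rw [Finset.sum_filter]
      refine Eq.trans (Finset.sum_congr rfl fun c _ => ?_) h3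
      rw [Pi.smul_apply, smul_eq_mul]
      by_cases hp : pt ρ = ist c
      · rw [if_pos hp, if_pos hp.symm, mul_comm]
      · rw [if_neg hp, if_neg (fun h => hp h.symm), mul_zero])
    intro c
    rw [h2, Pi.zero_apply]
  obtain ⟨r, -, hdet⟩ := Pool.Agent.Helper31.FewP.MIN.t ℚ Row Col _ hli
  -- the permutation `σ₀`
  obtain ⟨σ0, hσ0⟩ : ∃ σ : Equiv.Perm Col, ∀ c, pt (r (σ c)) = ist c := by
    by_contra hcon
    push Not at hcon
    apply hdet
    rw [Matrix.det_apply]
    refine Finset.sum_eq_zero fun σ _ => ?_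
    obtain ⟨c, hc⟩ := hcon σ
    rw [Finset.prod_eq_zero (Finset.mem_univ c) (by rw [Matrix.of_apply, if_neg hc]), smul_zero]
  have hta : ∀ σ : Equiv.Perm Col, ∑ c, ta (pt (r (σ c))) = ∑ c, ta (ist c) := by
    intro σ
    rw [Equiv.sum_comp σ (fun c => ta (pt (r c))), ← Equiv.sum_comp σ0 (fun c => ta (pt (r c)))]
    exact Finset.sum_congr rfl fun c _ => by rw [hσ0 c]
  set N : Matrix Col Col (PowerSeries (AddMonoidAlgebra ℚ G)) :=
    Matrix.of fun a c => M (r a) c with hN
  -- one term of the determinant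
  have key : ∀ σ : Equiv.Perm Col,
      (PowerSeries.coeff (∑ c, Pn c) (∏ c, M (r (σ c)) c)).coeff (∑ c, Pg c) =
        ∏ c, if pt (r (σ c)) = ist c then v (r (σ c)) c else 0 := by
    intro σ
    have h2 := h1 G bw Col Finset.univ (fun c => M (r (σ c)) c)
      (fun c => om c + ta (pt (r (σ c)))) Pn Pg
      (fun c _ K g hg => by
        obtain ⟨h3, h4⟩ := hM _ _ K g hg
        exact ⟨h3, fun h5 => (h4 h5).2⟩)
      (by
        rw [Finset.sum_add_distrib, hta σ, ← Finset.sum_add_distrib,
          Finset.sum_congr rfl (fun c _ => hc c), Finset.sum_add_distrib, map_sum, Nat.cast_sum])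
    by_cases hall : ∀ c ∈ (Finset.univ : Finset Col), om c + ta (pt (r (σ c))) = Pn c + bw (Pg c)
    · rw [h2.1 hall]
      refine Finset.prod_congr rfl fun c _ => ?_
      by_cases hp : pt (r (σ c)) = ist c
      · rw [if_pos hp, hv _ _ hp]
      · rw [if_neg hp]
        by_contra hne
        exact hp ((hM _ _ _ _ hne).2 (hall c (Finset.mem_univ c))).1
    · push Not at hall
      rw [h2.2 hall]
      obtain ⟨c, hcm, hcc⟩ := hall
      refine (Finset.prod_eq_zero hcm ?_).symm
      rw [if_neg]
      intro hp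
      apply hcc
      rw [hp, hc c]
  have hcoef : ch (∑ c, Pn c) (∑ c, Pg c) N.det =
      (Matrix.of fun (x c : Col) => if pt (r x) = ist c then v (r x) c else 0).det := by
    rw [Matrix.det_apply, Matrix.det_apply, map_sum]
    refine Finset.sum_congr rfl fun σ _ => ?_
    rw [Units.smul_def, Units.smul_def, map_zsmul]
    congr 1
    exact key σ
  have hN0 : N.det ≠ 0 := by
    intro h0
    apply hdet
    rw [← hcoef, h0, map_zero]
  have hfN : (f.mapMatrix N).det ≠ 0 := by
    rw [← RingHom.map_det]
    intro h0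
    exact hN0 (hf (by rw [h0, map_zero]))
  apply Matrix.eq_zero_of_mulVec_eq_zero hfN
  funext x
  exact ha (r x)

end Pool.Agent.Helper63.Tate.DET
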